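import Mathlib

/-! Poonen's question on union-closed families with a unique frequent element: the inequality behind the
results on large families. -/

set_option autoImplicit false

namespace Pool.Agent.Lib.MP_881a56_co.Large

open Finset

/-- The character of the element `i`. -/
private def chi (i : ℕ) (T : Finset ℕ) : ℤ := if i ∈ T then -1 else 1

private theorem sum_ins {s : Finset ℕ} {a : ℕ} (ha : a ∉ s) (f : Finset ℕ → ℤ) :
    ∑ T ∈ (insert a s).powerset, f T = ∑ T ∈ s.powerset, (f T + f (insert a T)) := by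
  rw [Finset.sum_powerset_insert ha, Finset.sum_add_distrib]

/-- The energy of `f`: squared differences over the edges of the cube. -/
private def en (s : Finset ℕ) (f : Finset ℕ → ℤ) : ℤ :=
  ∑ i ∈ s, ∑ T ∈ (s.erase i).powerset, (f T - f (insert i T)) ^ 2

private theorem en_nonneg (s : Finset ℕ) (f : Finset ℕ → ℤ) : 0 ≤ en s f :=
  sum_nonneg fun _ _ => sum_nonneg fun _ _ => sq_nonneg _

private theorem en_ins {s : Finset ℕ} {a : ℕ} (ha : a ∉ s) (f : Finset ℕ → ℤ) :
    2 * en (insert a s) f = 2 * ∑ T ∈ s.powerset, (f T - f (insert a T)) ^ 2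
      + en s (fun T => f T + f (insert a T)) + en s (fun T => f T - f (insert a T)) := by
  unfold en
  rw [sum_insert ha, erase_insert ha, mul_add, add_assoc]
  congr 1
  rw [← sum_add_distrib, mul_sum]
  refine sum_congr rfl fun i hi => ?_
  have hai : a ≠ i := fun h => ha (h ▸ hi)
  rw [erase_insert_of_ne hai, sum_ins (fun h => ha (mem_of_mem_erase h)), mul_sum, ← sum_add_distrib]
  refine sum_congr rfl fun T _ => ?_
  rw [Finset.insert_comm i a T]
  ring

private theorem poin (s : Finset ℕ) : ∀ f : Finset ℕ → ℤ,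
    2 * (2 ^ s.card * ∑ T ∈ s.powerset, f T ^ 2 - (∑ T ∈ s.powerset, f T) ^ 2) ≤ 2 ^ s.card * en s f := by
  induction s using Finset.induction_on with
  | empty => intro f; simp [en]
  | insert a s ha ih =>
    intro f
    have h1 := ih (fun T => f T + f (insert a T))
    have h2 := en_nonneg s (fun T => f T - f (insert a T))
    have h3 := en_ins ha f
    have h4 : 2 * ∑ T ∈ s.powerset, (f T ^ 2 + f (insert a T) ^ 2)
        = ∑ T ∈ s.powerset, (f T + f (insert a T)) ^ 2 + ∑ T ∈ s.powerset, (f T - f (insert a T)) ^ 2 := by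
      rw [mul_sum, ← sum_add_distrib]
      exact sum_congr rfl fun T _ => by ring
    rw [sum_ins ha, sum_ins ha, card_insert_of_notMem ha, pow_succ]
    have hn : (0 : ℤ) ≤ 2 ^ s.card := by positivity
    have h5 := mul_nonneg hn h2
    set n : ℤ := 2 ^ s.card
    set X := ∑ T ∈ s.powerset, (f T ^ 2 + f (insert a T) ^ 2)
    set Y := ∑ T ∈ s.powerset, (f T + f (insert a T)) ^ 2
    set Z := ∑ T ∈ s.powerset, (f T - f (insert a T)) ^ 2
    have h6 : n * (2 * X) = n * (Y + Z) := by rw [h4]
    have h7 : n * (2 * en (insert a s) f) = n * (2 * Z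
      + en s (fun T => f T + f (insert a T)) + en s (fun T => f T - f (insert a T))) := by rw [h3]
    nlinarith [h1, h5, h6, h7]

private theorem lev (s : Finset ℕ) : ∀ f : Finset ℕ → ℤ,
    4 * (2 ^ s.card * ∑ T ∈ s.powerset, f T ^ 2 - (∑ T ∈ s.powerset, f T) ^ 2) ≤ 2 ^ s.card * en s f
      + 2 * ∑ i ∈ s, (∑ T ∈ s.powerset, f T * chi i T) ^ 2 := by
  induction s using Finset.induction_on with
  | empty => intro f; simp [en]
  | insert a s ha ih =>
    intro f
    have h1 := ih (fun T => f T + f (insert a T))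
    have h2 := poin s (fun T => f T - f (insert a T))
    have h3 := en_ins ha f
    have h4 : 2 * ∑ T ∈ s.powerset, (f T ^ 2 + f (insert a T) ^ 2)
        = ∑ T ∈ s.powerset, (f T + f (insert a T)) ^ 2 + ∑ T ∈ s.powerset, (f T - f (insert a T)) ^ 2 := by
      rw [mul_sum, ← sum_add_distrib]
      exact sum_congr rfl fun T _ => by ring
    have haT : ∀ T ∈ s.powerset, a ∉ T := fun T hT h => ha (mem_powerset.1 hT h)
    have h8 : ∑ T ∈ s.powerset, (f T * chi a T + f (insert a T) * chi a (insert a T))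
        = ∑ T ∈ s.powerset, (f T - f (insert a T)) := by
      refine sum_congr rfl fun T hT => ?_
      simp only [chi, haT T hT, mem_insert_self, if_true, if_false]
      ring
    have h9 : ∀ i ∈ s, ∑ T ∈ s.powerset, (f T * chi i T + f (insert a T) * chi i (insert a T))
        = ∑ T ∈ s.powerset, (f T + f (insert a T)) * chi i T := by
      intro i hi
      have hia : i ≠ a := fun h => ha (h ▸ hi)
      refine sum_congr rfl fun T _ => ?_
      have : chi i (insert a T) = chi i T := by simp [chi, mem_insert, hia]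
      rw [this]
      ring
    rw [sum_ins ha, sum_ins ha, card_insert_of_notMem ha, pow_succ, sum_insert ha, sum_ins ha, h8]
    have h10 : ∑ i ∈ s, (∑ T ∈ (insert a s).powerset, f T * chi i T) ^ 2
        = ∑ i ∈ s, (∑ T ∈ s.powerset, (f T + f (insert a T)) * chi i T) ^ 2 := by
      refine sum_congr rfl fun i hi => ?_
      rw [sum_ins ha, h9 i hi]
    rw [h10]
    set n : ℤ := 2 ^ s.card
    set X := ∑ T ∈ s.powerset, (f T ^ 2 + f (insert a T) ^ 2)
    set Y := ∑ T ∈ s.powerset, (f T + f (insert a T)) ^ 2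
    set Z := ∑ T ∈ s.powerset, (f T - f (insert a T)) ^ 2
    have h6 : n * (2 * X) = n * (Y + Z) := by rw [h4]
    have h7 : n * (2 * en (insert a s) f) = n * (2 * Z
      + en s (fun T => f T + f (insert a T)) + en s (fun T => f T - f (insert a T))) := by rw [h3]
    nlinarith [h1, h2, h6, h7]

private theorem sq_sum (s : Finset ℕ) (b : ℕ → ℤ) : ∀ c : ℤ,
    ∑ T ∈ s.powerset, (c + ∑ i ∈ s, b i * chi i T) ^ 2 = 2 ^ s.card * (c ^ 2 + ∑ i ∈ s, b i ^ 2) := by
  induction s using Finset.induction_on with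
  | empty => intro c; simp
  | insert a s ha ih =>
    intro c
    have haT : ∀ T ∈ s.powerset, a ∉ T := fun T hT h => ha (mem_powerset.1 hT h)
    rw [sum_ins ha, sum_add_distrib]
    have h1 : ∑ T ∈ s.powerset, (c + ∑ i ∈ insert a s, b i * chi i T) ^ 2
        = ∑ T ∈ s.powerset, ((c + b a) + ∑ i ∈ s, b i * chi i T) ^ 2 := by
      refine sum_congr rfl fun T hT => ?_
      rw [sum_insert ha]
      simp only [chi, haT T hT, if_false]
      ring
    have h2 : ∑ T ∈ s.powerset, (c + ∑ i ∈ insert a s, b i * chi i (insert a T)) ^ 2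
        = ∑ T ∈ s.powerset, ((c - b a) + ∑ i ∈ s, b i * chi i T) ^ 2 := by
      refine sum_congr rfl fun T hT => ?_
      rw [sum_insert ha]
      have h3 : ∑ i ∈ s, b i * chi i (insert a T) = ∑ i ∈ s, b i * chi i T := by
        refine sum_congr rfl fun i hi => ?_
        have hia : i ≠ a := fun h => ha (h ▸ hi)
        simp [chi, mem_insert, hia]
      rw [h3]
      simp only [chi, mem_insert_self, if_true]
      ring
    rw [h1, h2, ih, ih, card_insert_of_notMem ha, pow_succ, sum_insert ha]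
    ring

private theorem chi_compl {s T : Finset ℕ} {i : ℕ} (hi : i ∈ s) : chi i (s \ T) = - chi i T := by
  unfold chi
  by_cases h : i ∈ T <;> simp [hi, h]

private theorem lin_compl (s : Finset ℕ) (b : ℕ → ℤ) (T : Finset ℕ) :
    ∑ i ∈ s, b i * chi i (s \ T) = - ∑ i ∈ s, b i * chi i T := by
  rw [← sum_neg_distrib]
  refine sum_congr rfl fun i hi => ?_
  rw [chi_compl hi]
  ring

private theorem sum_compl (s : Finset ℕ) (F : Finset ℕ → ℤ) :
    ∑ T ∈ s.powerset, F (s \ T) = ∑ T ∈ s.powerset, F T := by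
  refine sum_nbij' (fun T => s \ T) (fun T => s \ T) ?_ ?_ ?_ ?_ ?_
  · intro T _; exact mem_powerset.2 sdiff_subset
  · intro T _; exact mem_powerset.2 sdiff_subset
  · intro T hT; exact Finset.sdiff_sdiff_eq_self (mem_powerset.1 hT)
  · intro T hT; exact Finset.sdiff_sdiff_eq_self (mem_powerset.1 hT)
  · intro T _; rfl

/-- The negative parts carry half of the square sum. -/
private theorem neg_part (s : Finset ℕ) (b : ℕ → ℤ) :
    2 * ∑ T ∈ s.powerset, (max (- ∑ i ∈ s, b i * chi i T) 0) ^ 2 = 2 ^ s.card * ∑ i ∈ s, b i ^ 2 := by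
  have h1 := sum_compl s (fun T => (max (- ∑ i ∈ s, b i * chi i T) 0) ^ 2)
  simp only [lin_compl, neg_neg] at h1
  have h2 := sq_sum s b 0
  have h3 : ∑ T ∈ s.powerset, (0 + ∑ i ∈ s, b i * chi i T) ^ 2
      = ∑ T ∈ s.powerset, (max (∑ i ∈ s, b i * chi i T) 0) ^ 2
        + ∑ T ∈ s.powerset, (max (- ∑ i ∈ s, b i * chi i T) 0) ^ 2 := by
    rw [← sum_add_distrib]
    refine sum_congr rfl fun T _ => ?_
    rcases le_total (∑ i ∈ s, b i * chi i T) 0 with h | h
    · rw [max_eq_right h, max_eq_left (by linarith)]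
      ring
    · rw [max_eq_left h, max_eq_right (by linarith)]
      ring
  rw [h3, h1] at h2
  linarith

/-- The sign function of a family. -/
private def sg (H : Finset (Finset ℕ)) (T : Finset ℕ) : ℤ := if T ∈ H then 1 else -1

private def Lc (s : Finset ℕ) (H : Finset (Finset ℕ)) (i : ℕ) : ℤ := ∑ T ∈ s.powerset, sg H T * chi i T

/-- The lower edges of the complement. -/
private def dn (s : Finset ℕ) (H : Finset (Finset ℕ)) : Finset ((_ : ℕ) × Finset ℕ) :=
  s.sigma fun i => (s.erase i).powerset.filter (fun T => T ∈ H ∧ insert i T ∉ H)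

private theorem mem_dn {s : Finset ℕ} {H : Finset (Finset ℕ)} {i : ℕ} {T : Finset ℕ} :
    (⟨i, T⟩ : (_ : ℕ) × Finset ℕ) ∈ dn s H ↔ i ∈ s ∧ T ⊆ s.erase i ∧ T ∈ H ∧ insert i T ∉ H := by
  simp [dn]

private theorem dn_card (s : Finset ℕ) (H : Finset (Finset ℕ)) :
    ∑ i ∈ s, (((s.erase i).powerset.filter (fun T => T ∈ H ∧ insert i T ∉ H)).card : ℤ) = (dn s H).card := by
  rw [← Nat.cast_sum, ← card_sigma]
  rfl

private theorem dn_maps {s : Finset ℕ} {H : Finset (Finset ℕ)} :
    ∀ p ∈ dn s H, insert p.1 p.2 ∈ s.powerset \ H := by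
  rintro ⟨i, T⟩ h
  rw [mem_dn] at h
  exact mem_sdiff.2 ⟨mem_powerset.2 (insert_subset h.1 (h.2.1.trans (erase_subset _ _))), h.2.2.2⟩

/-- A non-member has at most one lower neighbour in a union-closed family. -/
private theorem dn_inj {s : Finset ℕ} {H : Finset (Finset ℕ)} (hU : ∀ A ∈ H, ∀ B ∈ H, A ∪ B ∈ H) :
    Set.InjOn (fun p : (_ : ℕ) × Finset ℕ => insert p.1 p.2) (dn s H : Set ((_ : ℕ) × Finset ℕ)) := by
  rintro ⟨i, T⟩ h ⟨j, T'⟩ h' he
  rw [mem_coe, mem_dn] at h h'
  simp only at he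
  have hi : i ∉ T := fun hh => (notMem_erase i s) (h.2.1 hh)
  have hj : j ∉ T' := fun hh => (notMem_erase j s) (h'.2.1 hh)
  have hij : i = j := by
    by_contra hne
    apply h.2.2.2
    have : T ∪ T' = insert i T := by
      ext y
      constructor
      · intro hy
        rcases mem_union.1 hy with hy | hy
        · exact mem_insert_of_mem hy
        · rw [he]; exact mem_insert_of_mem hy
      · intro hy
        rcases mem_insert.1 hy with hy | hy
        · subst hy
          have h1 : y ∈ insert j T' := he ▸ mem_insert_self y T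
          rcases mem_insert.1 h1 with h1 | h1
          · exact absurd h1 hne
          · exact mem_union_right _ h1
        · exact mem_union_left _ hy
    rw [← this]
    exact hU T h.2.2.1 T' h'.2.2.1
  subst hij
  have : T = T' := by
    rw [← erase_insert hi, ← erase_insert hj, he]
  subst this
  rfl

private theorem down_le {s : Finset ℕ} {H : Finset (Finset ℕ)} (hU : ∀ A ∈ H, ∀ B ∈ H, A ∪ B ∈ H) :
    ∑ i ∈ s, (((s.erase i).powerset.filter (fun T => T ∈ H ∧ insert i T ∉ H)).card : ℤ)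
      ≤ ((s.powerset \ H).card : ℤ) := by
  rw [dn_card]
  exact Nat.cast_le.2 (card_le_card_of_injOn _ dn_maps (dn_inj hU))

/-- If there are as many lower edges as non-members, every non-member has a lower neighbour. -/
private theorem dn_surj {s : Finset ℕ} {H : Finset (Finset ℕ)} (hU : ∀ A ∈ H, ∀ B ∈ H, A ∪ B ∈ H)
    (hc : (s.powerset \ H).card ≤ (dn s H).card) :
    ∀ T ∈ s.powerset \ H, ∃ r ∈ T, T.erase r ∈ H := by
  intro T hT
  have h1 : (dn s H).image (fun p => insert p.1 p.2) = s.powerset \ H := by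
    refine eq_of_subset_of_card_le (fun U hU' => ?_) ?_
    · obtain ⟨p, hp, rfl⟩ := mem_image.1 hU'
      exact dn_maps p hp
    · rw [card_image_of_injOn (dn_inj hU)]
      exact hc
  rw [← h1, mem_image] at hT
  obtain ⟨⟨i, U⟩, hp, rfl⟩ := hT
  rw [mem_dn] at hp
  refine ⟨i, mem_insert_self _ _, ?_⟩
  have hi : i ∉ U := fun hh => (notMem_erase i s) (hp.2.1 hh)
  simp only
  rw [erase_insert hi]
  exact hp.2.2.1

private theorem L_edge {s : Finset ℕ} {H : Finset (Finset ℕ)} {i : ℕ} (hi : i ∈ s) :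
    Lc s H i = ∑ T ∈ (s.erase i).powerset, (sg H T - sg H (insert i T)) := by
  unfold Lc
  have h := sum_ins (notMem_erase i s) (fun T => sg H T * chi i T)
  rw [insert_erase hi] at h
  rw [h]
  refine sum_congr rfl fun T hT => ?_
  have h1 : i ∉ T := fun hh => (notMem_erase i s) (mem_powerset.1 hT hh)
  simp only [chi, h1, mem_insert_self, if_true, if_false]
  ring

private theorem energy_id {s : Finset ℕ} {H : Finset (Finset ℕ)} :
    en s (sg H) + 2 * ∑ i ∈ s, Lc s H i
      = 8 * ∑ i ∈ s, (((s.erase i).powerset.filter (fun T => T ∈ H ∧ insert i T ∉ H)).card : ℤ) := by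
  unfold en
  rw [mul_sum, mul_sum, ← sum_add_distrib]
  refine sum_congr rfl fun i hi => ?_
  rw [L_edge hi, card_filter, Nat.cast_sum, mul_sum, mul_sum, ← sum_add_distrib]
  refine sum_congr rfl fun T _ => ?_
  unfold sg
  by_cases h1 : T ∈ H <;> by_cases h2 : insert i T ∈ H <;> simp [h1, h2]

private theorem sg_sq (s : Finset ℕ) (H : Finset (Finset ℕ)) :
    ∑ T ∈ s.powerset, sg H T ^ 2 = 2 ^ s.card := by
  have : ∀ T ∈ s.powerset, sg H T ^ 2 = 1 := fun T _ => by unfold sg; split_ifs <;> norm_num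
  rw [sum_congr rfl this, sum_const, card_powerset]
  simp

private theorem sum_sg {s : Finset ℕ} {H : Finset (Finset ℕ)} (hH : H ⊆ s.powerset) (w : Finset ℕ → ℤ) :
    ∑ T ∈ s.powerset, sg H T * w T = 2 * ∑ T ∈ H, w T - ∑ T ∈ s.powerset, w T := by
  have h1 : ∑ T ∈ H, w T = ∑ T ∈ s.powerset, if T ∈ H then w T else 0 := by
    rw [← sum_filter]
    congr 1
    ext T
    simp only [mem_filter]
    exact ⟨fun h => ⟨hH h, h⟩, fun h => h.2⟩
  rw [h1, mul_sum, ← sum_sub_distrib]
  refine sum_congr rfl fun T _ => ?_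
  unfold sg
  split_ifs <;> ring

private theorem sum_chi {s : Finset ℕ} {i : ℕ} (hi : i ∈ s) : ∑ T ∈ s.powerset, chi i T = 0 := by
  have h := sum_ins (notMem_erase i s) (fun T => chi i T)
  rw [insert_erase hi] at h
  rw [h]
  refine sum_eq_zero fun T hT => ?_
  have h1 : i ∉ T := fun hh => (notMem_erase i s) (mem_powerset.1 hT hh)
  simp [chi, h1]

private theorem L_deg {s : Finset ℕ} {H : Finset (Finset ℕ)} (hH : H ⊆ s.powerset) {i : ℕ} (hi : i ∈ s) :
    Lc s H i = 2 * ((H.card : ℤ) - 2 * ((H.filter (fun A => i ∈ A)).card : ℤ)) := by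
  unfold Lc
  rw [sum_sg hH, sum_chi hi, sub_zero]
  congr 1
  have : ∀ T ∈ H, chi i T = 1 - 2 * (if i ∈ T then 1 else 0) := fun T _ => by
    unfold chi; split_ifs <;> norm_num
  rw [sum_congr rfl this, sum_sub_distrib, ← mul_sum, card_filter]
  simp

/-- `L` through the complement. -/
private theorem L_compl {s : Finset ℕ} {H : Finset (Finset ℕ)} {i : ℕ} (hi : i ∈ s) :
    Lc s H i = - 2 * ∑ T ∈ s.powerset \ H, chi i T := by
  have h1 : Lc s H i = ∑ T ∈ s.powerset, (sg H T - 1) * chi i T := by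
    have h2 : ∑ T ∈ s.powerset, (sg H T - 1) * chi i T
        = ∑ T ∈ s.powerset, sg H T * chi i T - ∑ T ∈ s.powerset, chi i T := by
      rw [← sum_sub_distrib]
      exact sum_congr rfl fun T _ => by ring
    rw [h2, sum_chi hi, sub_zero]
    rfl
  rw [h1, sdiff_eq_filter, sum_filter, mul_sum]
  refine sum_congr rfl fun T _ => ?_
  unfold sg
  by_cases h : T ∈ H <;> simp [h]

private theorem abs_le_card (G : Finset (Finset ℕ)) (i : ℕ) :
    - (G.card : ℤ) ≤ ∑ T ∈ G, chi i T ∧ ∑ T ∈ G, chi i T ≤ G.card := by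
  constructor
  · have : ∑ T ∈ G, (-1 : ℤ) ≤ ∑ T ∈ G, chi i T := sum_le_sum fun T _ => by unfold chi; split_ifs <;> norm_num
    simpa using this
  · have : ∑ T ∈ G, chi i T ≤ ∑ T ∈ G, (1 : ℤ) := sum_le_sum fun T _ => by unfold chi; split_ifs <;> norm_num
    simpa using this

/-- The basic inequality (Karpas), with the number of lower edges. -/
private theorem karpas' {s : Finset ℕ} {H : Finset (Finset ℕ)} (hH : H ⊆ s.powerset)
    {n g : ℤ} (hn : n = 2 ^ s.card) (hg : g = ((s.powerset \ H).card : ℤ)) :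
    ∑ i ∈ s, Lc s H i * (n - Lc s H i) + 4 * g * (n - 2 * g)
      + 4 * n * (g - ∑ i ∈ s, (((s.erase i).powerset.filter (fun T => T ∈ H ∧ insert i T ∉ H)).card : ℤ)) ≤ 0 := by
  have h1 := lev s (sg H)
  have h2 := energy_id (s := s) (H := H)
  have hcard : (H.card : ℤ) + g = n := by
    rw [hg, hn, ← Nat.cast_add, add_comm, card_sdiff_add_card_eq_card hH, card_powerset]
    simp
  have h4 : ∑ T ∈ s.powerset, sg H T = n - 2 * g := by
    have := sum_sg hH (fun _ => (1 : ℤ))
    simp only [mul_one, sum_const, card_powerset, nsmul_eq_mul, Nat.cast_pow, Nat.cast_ofNat] at this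
    rw [this, ← hn]
    linarith
  rw [sg_sq, h4, ← hn] at h1
  set E := ∑ i ∈ s, (((s.erase i).powerset.filter (fun T => T ∈ H ∧ insert i T ∉ H)).card : ℤ)
  have h5 : ∑ i ∈ s, Lc s H i * (n - Lc s H i) = n * ∑ i ∈ s, Lc s H i - ∑ i ∈ s, Lc s H i ^ 2 := by
    rw [mul_sum, ← sum_sub_distrib]
    exact sum_congr rfl fun i _ => by ring
  rw [h5]
  have h6 : n * (en s (sg H) + 2 * ∑ i ∈ s, Lc s H i) = n * (8 * E) := by rw [h2]
  have h8 : ∑ i ∈ s, (∑ T ∈ s.powerset, sg H T * chi i T) ^ 2 = ∑ i ∈ s, Lc s H i ^ 2 := rfl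
  rw [h8] at h1
  nlinarith [h1, h6]

/-- The basic inequality (Karpas). -/
private theorem karpas {s : Finset ℕ} {H : Finset (Finset ℕ)} (hH : H ⊆ s.powerset)
    (hU : ∀ A ∈ H, ∀ B ∈ H, A ∪ B ∈ H) {n g : ℤ} (hn : n = 2 ^ s.card) (hg : g = ((s.powerset \ H).card : ℤ)) :
    ∑ i ∈ s, Lc s H i * (n - Lc s H i) + 4 * g * (n - 2 * g) ≤ 0 := by
  have h1 := karpas' hH hn hg
  have h3 := down_le (s := s) hU
  rw [← hg] at h3
  have hn0 : 0 ≤ n := by rw [hn]; positivity
  have h7 := mul_nonneg hn0 (sub_nonneg.2 h3)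
  linarith

/-- The first level of a family with a small complement. -/
private theorem level_one {s : Finset ℕ} {H : Finset (Finset ℕ)} {n g : ℤ}
    (hn : n = 2 ^ s.card) (hg : g = ((s.powerset \ H).card : ℤ)) :
    ∑ i ∈ s, Lc s H i ^ 2 ≤ 2 * n * g := by
  have hnp : 0 < n := by rw [hn]; positivity
  set l : Finset ℕ → ℤ := fun T => ∑ i ∈ s, Lc s H i * chi i T with hl
  have h1 : ∑ i ∈ s, Lc s H i ^ 2 = - 2 * ∑ T ∈ s.powerset \ H, l T := by
    simp only [hl]
    rw [sum_comm, mul_sum]
    refine sum_congr rfl fun i hi => ?_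
    rw [← mul_sum, sq]
    nth_rewrite 2 [L_compl hi]
    ring
  have h2 := neg_part s (Lc s H)
  rw [← hn] at h2
  have h3 : ∀ T ∈ s.powerset \ H, n * (- 2 * l T) ≤ (max (- l T) 0) ^ 2 + n ^ 2 := by
    intro T _
    have h4 := le_max_left (- l T) 0
    nlinarith [sq_nonneg (max (- l T) 0 - n)]
  have h5 := sum_le_sum h3
  rw [sum_add_distrib, ← mul_sum, ← mul_sum, ← h1, sum_const, nsmul_eq_mul, ← hg] at h5
  have h6 : ∑ T ∈ s.powerset \ H, (max (- l T) 0) ^ 2 ≤ ∑ T ∈ s.powerset, (max (- l T) 0) ^ 2 :=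
    sum_le_sum_of_subset_of_nonneg sdiff_subset fun _ _ _ => sq_nonneg _
  have h7 : n * (∑ i ∈ s, Lc s H i ^ 2) ≤ n * (2 * n * g) := by
    simp only [hl] at h6
    nlinarith [h2, h5, h6]
  exact le_of_mul_le_mul_left h7 hnp

private theorem L_bounds {s : Finset ℕ} {H : Finset (Finset ℕ)} {i : ℕ} (hi : i ∈ s) {g : ℤ}
    (hg : g = ((s.powerset \ H).card : ℤ)) : -(2 * g) ≤ Lc s H i ∧ Lc s H i ≤ 2 * g := by
  have h := abs_le_card (s.powerset \ H) i
  rw [← hg] at h
  rw [L_compl hi]
  constructor <;> linarith [h.1, h.2]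

/-- If `L` is extreme, every non-member contains the element. -/
private theorem extreme {s : Finset ℕ} {H : Finset (Finset ℕ)} {i : ℕ} (hi : i ∈ s)
    (h : Lc s H i = 2 * ((s.powerset \ H).card : ℤ)) : ∀ T ∈ s.powerset \ H, i ∈ T := by
  intro T hT
  by_contra hiT
  rw [L_compl hi] at h
  have h1 : ∑ U ∈ s.powerset \ H, (-1 : ℤ) < ∑ U ∈ s.powerset \ H, chi i U := by
    refine sum_lt_sum (fun U _ => by unfold chi; split_ifs <;> norm_num) ⟨T, hT, ?_⟩
    simp [chi, hiT]
  simp only [sum_const, nsmul_eq_mul, mul_neg, mul_one] at h1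
  linarith

/-- The two layers. `m`, `g` = number of missing sets. -/
private theorem layers {s : Finset ℕ} {P Q : Finset (Finset ℕ)} (hP : P ⊆ s.powerset) (hQ : Q ⊆ s.powerset)
    (hPU : ∀ A ∈ P, ∀ B ∈ P, A ∪ B ∈ P) (hQU : ∀ A ∈ Q, ∀ B ∈ Q, A ∪ B ∈ Q)
    (hpos : ∀ i ∈ s, 0 < Lc s P i + Lc s Q i) {n m g : ℤ} (hn : n = 2 ^ s.card)
    (hm : m = ((s.powerset \ P).card : ℤ)) (hg : g = ((s.powerset \ Q).card : ℤ))
    (hmg : 2 * (m + g) ≤ n) (hle : g ≤ m) {i : ℕ} (hi : i ∈ s) :
    g = 0 ∧ n = 2 * m ∧ ∀ j ∈ s, Lc s P j = 2 * m := by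
  have k1 := karpas hP hPU hn hm
  have k2 := karpas hQ hQU hn hg
  have k3 := level_one (s := s) (H := Q) hn hg
  have hm0 : 0 ≤ m := by rw [hm]; positivity
  have hg0 : 0 ≤ g := by rw [hg]; positivity
  have hn0 : 0 < n := by rw [hn]; positivity
  have e1 : ∑ j ∈ s, (Lc s P j + Lc s Q j) * (n - Lc s P j + Lc s Q j)
      = ∑ j ∈ s, Lc s P j * (n - Lc s P j) + ∑ j ∈ s, Lc s Q j * (n - Lc s Q j) + 2 * ∑ j ∈ s, Lc s Q j ^ 2 := by
    rw [mul_sum, ← sum_add_distrib, ← sum_add_distrib]
    exact sum_congr rfl fun j _ => by ring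
  have b : ∀ j ∈ s, 0 ≤ n - Lc s P j + Lc s Q j := by
    intro j hj
    have b1 := (L_bounds hj hm).2
    have b2 := (L_bounds hj hg).1
    linarith
  have hnn : ∀ j ∈ s, 0 ≤ (Lc s P j + Lc s Q j) * (n - Lc s P j + Lc s Q j) :=
    fun j hj => mul_nonneg (hpos j hj).le (b j hj)
  have t1 : 0 ≤ m * (n - 2 * m - 2 * g) := mul_nonneg hm0 (by linarith)
  have t2 : 0 ≤ g * (m - g) := mul_nonneg hg0 (by linarith)
  have hs : ∑ j ∈ s, (Lc s P j + Lc s Q j) * (n - Lc s P j + Lc s Q j)
      ≤ - 4 * (m * (n - 2 * m - 2 * g)) - 8 * (g * (m - g)) := by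
    rw [e1]
    nlinarith [k1, k2, k3]
  have hs0 := sum_nonneg hnn
  have z1 : m * (n - 2 * m - 2 * g) = 0 := by linarith
  have z2 : g * (m - g) = 0 := by linarith
  have z3 : ∑ j ∈ s, (Lc s P j + Lc s Q j) * (n - Lc s P j + Lc s Q j) = 0 := by linarith
  have z4 : ∀ j ∈ s, n - Lc s P j + Lc s Q j = 0 := by
    intro j hj
    have := (sum_eq_zero_iff_of_nonneg hnn).1 z3 j hj
    rcases mul_eq_zero.1 this with h | h
    · exact absurd h (hpos j hj).ne'
    · exact h
  have z5 : ∀ j ∈ s, Lc s P j = 2 * m ∧ Lc s Q j = - (2 * g) ∧ n = 2 * (m + g) := by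
    intro j hj
    have b1 := (L_bounds hj hm).2
    have b2 := (L_bounds hj hg).1
    have b3 := z4 j hj
    refine ⟨by linarith, by linarith, by linarith⟩
  have z6 := z5 i hi
  have z7 := hpos i hi
  rw [z6.1, z6.2.1] at z7
  have z8 : g = 0 := by
    rcases mul_eq_zero.1 z2 with h | h
    · exact h
    · exact absurd h (by linarith)
  exact ⟨z8, by rw [z6.2.2, z8, add_zero], fun j hj => (z5 j hj).1⟩

/-- The two layers of a family. -/
private theorem setup {F : Finset (Finset ℕ)} {M : Finset ℕ} {x : ℕ} (hU : ∀ A ∈ F, ∀ B ∈ F, A ∪ B ∈ F)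
    (hsub : ∀ A ∈ F, A ⊆ M) (hxM : x ∈ M) :
    ∃ (s : Finset ℕ) (P Q : Finset (Finset ℕ)), x ∉ s ∧ M = insert x s ∧ P ⊆ s.powerset ∧ Q ⊆ s.powerset ∧
      (∀ A ∈ P, ∀ B ∈ P, A ∪ B ∈ P) ∧ (∀ A ∈ Q, ∀ B ∈ Q, A ∪ B ∈ Q) ∧
      (∀ T, T ∈ P ↔ T ∈ F ∧ x ∉ T) ∧ (∀ T, T ⊆ s → (T ∈ Q ↔ insert x T ∈ F)) ∧
      ((P.card : ℤ) + Q.card = F.card) ∧
      (∀ i ∈ s, ((P.filter (fun A => i ∈ A)).card : ℤ) + (Q.filter (fun A => i ∈ A)).card
        = (F.filter (fun A => i ∈ A)).card) := by
  set s := M.erase x with hs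
  set P := F.filter (fun A => x ∉ A) with hPd
  set Q := (F.filter (fun A => x ∈ A)).image (fun A => A.erase x) with hQd
  have hxs : x ∉ s := notMem_erase x M
  have hMs : M = insert x s := (insert_erase hxM).symm
  have memQ : ∀ T, T ⊆ s → (T ∈ Q ↔ insert x T ∈ F) := by
    intro T hT
    have hxT : x ∉ T := fun h => hxs (hT h)
    rw [hQd, mem_image]
    constructor
    · rintro ⟨A, hA, rfl⟩
      rw [mem_filter] at hA
      rw [insert_erase hA.2]
      exact hA.1
    · intro h
      exact ⟨insert x T, mem_filter.2 ⟨h, mem_insert_self _ _⟩, erase_insert hxT⟩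
  have hP : P ⊆ s.powerset := by
    intro A hA
    rw [hPd, mem_filter] at hA
    exact mem_powerset.2 (subset_erase.2 ⟨hsub A hA.1, hA.2⟩)
  have hQ : Q ⊆ s.powerset := by
    intro T hT
    rw [hQd, mem_image] at hT
    obtain ⟨A, hA, rfl⟩ := hT
    exact mem_powerset.2 (erase_subset_erase x (hsub A (mem_filter.1 hA).1))
  have inj : Set.InjOn (fun A : Finset ℕ => A.erase x) (F.filter (fun A => x ∈ A) : Finset (Finset ℕ)) := by
    intro A hA B hB h
    rw [mem_coe, mem_filter] at hA hB
    simp only at h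
    rw [← insert_erase hA.2, ← insert_erase hB.2, h]
  have cQ : Q.card = (F.filter (fun A => x ∈ A)).card := card_image_of_injOn inj
  refine ⟨s, P, Q, hxs, hMs, hP, hQ, ?_, ?_, fun T => mem_filter, memQ, ?_, ?_⟩
  · intro A hA B hB
    rw [hPd, mem_filter] at hA hB ⊢
    exact ⟨hU A hA.1 B hB.1, by rw [mem_union]; tauto⟩
  · intro A hA B hB
    have hA' := mem_powerset.1 (hQ hA)
    have hB' := mem_powerset.1 (hQ hB)
    rw [memQ _ (union_subset hA' hB')]
    have := hU _ ((memQ A hA').1 hA) _ ((memQ B hB').1 hB)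
    rwa [← insert_union_distrib] at this
  · have := card_filter_add_card_filter_not (s := F) (fun A => x ∈ A)
    rw [cQ, hPd]
    push_cast [← this]
    ring
  · intro i hi
    have hix : i ≠ x := fun h => hxs (h ▸ hi)
    have h1 : (Q.filter (fun A => i ∈ A)).card = ((F.filter (fun A => i ∈ A)).filter (fun A => x ∈ A)).card := by
      rw [hQd, filter_image, card_image_of_injOn]
      · congr 1
        ext A
        simp only [mem_filter, mem_erase]
        tauto
      · intro A hA B hB h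
        rw [mem_coe, mem_filter] at hA hB
        exact inj hA.1 hB.1 h
    have h2 : P.filter (fun A => i ∈ A) = (F.filter (fun A => i ∈ A)).filter (fun A => x ∉ A) := by
      rw [hPd]
      ext A
      simp only [mem_filter]
      tauto
    have := card_filter_add_card_filter_not (s := F.filter (fun A => i ∈ A)) (fun A => x ∈ A)
    rw [h1, h2]
    push_cast [← this]
    ring

private theorem compl_card {s : Finset ℕ} {H : Finset (Finset ℕ)} (hH : H ⊆ s.powerset) :
    (H.card : ℤ) + ((s.powerset \ H).card : ℤ) = 2 ^ s.card := by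
  rw [← Nat.cast_add, add_comm, card_sdiff_add_card_eq_card hH, card_powerset]
  simp

/-- The description of the extremal family through its layers. -/
private theorem descr {F : Finset (Finset ℕ)} {M s : Finset ℕ} {x : ℕ} {P Q : Finset (Finset ℕ)}
    (hsub : ∀ A ∈ F, A ⊆ M) (hMs : M = insert x s)
    (memP : ∀ T, T ∈ P ↔ T ∈ F ∧ x ∉ T) (memQ : ∀ T, T ⊆ s → (T ∈ Q ↔ insert x T ∈ F))
    (hPe : P = {∅}) (hQall : ∀ T, T ⊆ s → T ∈ Q) :
    F = insert ∅ (M.powerset.filter (fun S => x ∈ S)) := by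
  ext A
  rw [mem_insert, mem_filter, mem_powerset]
  constructor
  · intro hA
    by_cases hxA : x ∈ A
    · exact Or.inr ⟨hsub A hA, hxA⟩
    · left
      have := (memP A).2 ⟨hA, hxA⟩
      rw [hPe, mem_singleton] at this
      exact this
  · rintro (h | ⟨hAM, hxA⟩)
    · have h1 : (∅ : Finset ℕ) ∈ P := by rw [hPe]; exact mem_singleton_self _
      rw [h]
      exact ((memP ∅).1 h1).1
    · have h3 : A.erase x ⊆ s := by
        rw [hMs] at hAM
        intro y hy
        rw [mem_erase] at hy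
        exact (mem_insert.1 (hAM hy.2)).resolve_left hy.1
      have := (memQ _ h3).1 (hQall _ h3)
      rwa [insert_erase hxA] at this

/-- Part A: at least three quarters of all subsets. -/
theorem partA {F : Finset (Finset ℕ)} {M : Finset ℕ} {x : ℕ} (hU : ∀ A ∈ F, ∀ B ∈ F, A ∪ B ∈ F)
    (hM : M ∈ F) (hsub : ∀ A ∈ F, A ⊆ M) (hxM : x ∈ M)
    (hx : ∀ y : ℕ, F.card ≤ 2 * (F.filter (fun A => y ∈ A)).card ↔ y = x)
    (hbig : 3 * 2 ^ M.card ≤ 4 * F.card) (h2 : 2 ≤ M.card) :
    F = insert ∅ (M.powerset.filter (fun S => x ∈ S)) := by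
  obtain ⟨s, P, Q, hxs, hMs, hP, hQ, hPU, hQU, memP, memQ, cF, dF⟩ := setup hU hsub hxM
  have hpos : ∀ i ∈ s, 0 < Lc s P i + Lc s Q i := by
    intro i hi
    have hix : i ≠ x := fun h => hxs (h ▸ hi)
    have h1 : ¬ F.card ≤ 2 * (F.filter (fun A => i ∈ A)).card := fun h => hix ((hx i).1 h)
    have h2 : (2 * ((F.filter (fun A => i ∈ A)).card : ℤ)) < F.card := by
      have := not_le.1 h1
      exact_mod_cast this
    rw [L_deg hP hi, L_deg hQ hi]
    have h3 := dF i hi
    linarith
  have hMc : M.card = s.card + 1 := by rw [hMs, card_insert_of_notMem hxs]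
  have c1 := compl_card hP
  have c2 := compl_card hQ
  have hb2 : 2 * (((s.powerset \ P).card : ℤ) + ((s.powerset \ Q).card : ℤ)) ≤ 2 ^ s.card := by
    have h1 : (3 : ℤ) * 2 ^ M.card ≤ 4 * F.card := by exact_mod_cast hbig
    rw [hMc, pow_succ] at h1
    linarith
  obtain ⟨i, hi⟩ : s.Nonempty := by
    rw [← card_pos]
    omega
  rcases le_total ((s.powerset \ Q).card : ℤ) ((s.powerset \ P).card : ℤ) with hle | hle
  · obtain ⟨g0, n2, hL⟩ := layers hP hQ hPU hQU hpos rfl rfl rfl hb2 hle hi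
    have hall : ∀ T ∈ s.powerset \ P, T = s := by
      intro T hT
      refine (mem_powerset.1 (mem_sdiff.1 hT).1).antisymm fun j hj => ?_
      exact extreme hj (hL j hj) T hT
    have hm1 : (s.powerset \ P).card ≤ 1 := card_le_one.2 fun A hA B hB => (hall A hA).trans (hall B hB).symm
    have hs1 : s.card = 1 := by
      have h3 : (2 : ℤ) ^ s.card ≤ 2 ^ 1 := by
        rw [n2]
        have : ((s.powerset \ P).card : ℤ) ≤ 1 := by exact_mod_cast hm1
        linarith
      have h4 : s.card ≤ 1 := (pow_le_pow_iff_right₀ (by norm_num : (1 : ℤ) < 2)).1 h3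
      have h5 : 0 < s.card := card_pos.2 ⟨i, hi⟩
      omega
    have hPne : s ∉ P := by
      intro hsP
      have h3 : (s.powerset \ P).card = 0 := by
        rw [card_eq_zero, eq_empty_iff_forall_notMem]
        intro T hT
        have := hall T hT
        subst this
        exact (mem_sdiff.1 hT).2 hsP
      rw [h3] at n2
      simp at n2
    have hQall : ∀ T, T ⊆ s → T ∈ Q := by
      intro T hT
      have h3 : (s.powerset \ Q).card = 0 := by exact_mod_cast g0
      by_contra hTQ
      have : T ∈ s.powerset \ Q := mem_sdiff.2 ⟨mem_powerset.2 hT, hTQ⟩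
      rw [card_eq_zero.1 h3] at this
      exact absurd this (notMem_empty _)
    obtain ⟨y, hy⟩ := card_eq_one.1 hs1
    refine descr hsub hMs memP memQ ?_ hQall
    ext A
    rw [mem_singleton]
    constructor
    · intro hAP
      have hAs := mem_powerset.1 (hP hAP)
      rw [hy] at hAs
      rcases subset_singleton_iff.1 hAs with h | h
      · exact h
      · rw [h, ← hy] at hAP
        exact absurd hAP hPne
    · intro h
      subst h
      by_contra hF
      have h3 : (∅ : Finset ℕ) ∈ s.powerset \ P := mem_sdiff.2 ⟨empty_mem_powerset s, hF⟩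
      have := hall _ h3
      rw [← this] at hi
      exact absurd hi (notMem_empty _)
  · have hpos' : ∀ i ∈ s, 0 < Lc s Q i + Lc s P i := fun i hi => by rw [add_comm]; exact hpos i hi
    obtain ⟨g0, n2, hL⟩ := layers hQ hP hQU hPU hpos' rfl rfl rfl (by rw [add_comm]; exact hb2) hle hi
    exfalso
    have hsQ : s ∈ Q := (memQ s subset_rfl).2 (hMs ▸ hM)
    have h3 : (s.powerset \ Q).card = 0 := by
      rw [card_eq_zero, eq_empty_iff_forall_notMem]
      intro T hT
      have : T = s := (mem_powerset.1 (mem_sdiff.1 hT).1).antisymm fun j hj => extreme hj (hL j hj) T hT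
      subst this
      exact (mem_sdiff.1 hT).2 hsQ
    rw [h3] at n2
    simp at n2

/-- Part C: the frequent element is in too few members. -/
theorem partC {F : Finset (Finset ℕ)} {M : Finset ℕ} {x : ℕ} (hU : ∀ A ∈ F, ∀ B ∈ F, A ∪ B ∈ F)
    (hsub : ∀ A ∈ F, A ⊆ M) (hxM : x ∈ M)
    (hx : ∀ y : ℕ, F.card ≤ 2 * (F.filter (fun A => y ∈ A)).card ↔ y = x)
    (hC : (2 * ((F.filter (fun A => x ∈ A)).card : ℤ) - F.card)
        * (2 ^ M.card + 2 * (2 * ((F.filter (fun A => x ∈ A)).card : ℤ) - F.card))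
      < 2 * (2 ^ M.card - F.card) * (2 * F.card - 2 ^ M.card)) : False := by
  have hF : F ⊆ M.powerset := fun A hA => mem_powerset.2 (hsub A hA)
  have c := compl_card hF
  have hk := karpas hF hU rfl rfl
  set n : ℤ := 2 ^ M.card
  set g : ℤ := ((M.powerset \ F).card : ℤ) with hg
  have hg0 : 0 ≤ g := by rw [hg]; positivity
  have hn0 : 0 < n := by positivity
  set w : ℤ := 2 * ((F.filter (fun A => x ∈ A)).card : ℤ) - F.card with hw
  have hw0 : 0 ≤ w := by
    have := (hx x).2 rfl
    have h2 : (F.card : ℤ) ≤ 2 * ((F.filter (fun A => x ∈ A)).card : ℤ) := by exact_mod_cast this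
    linarith
  have hFc : (F.card : ℤ) = n - g := by linarith
  rw [hFc] at hC
  have h2 : 0 < 2 * (n - (n - g)) * (2 * (n - g) - n) := lt_of_le_of_lt (by positivity) hC
  have h3 : 2 * g ≤ n := by
    by_contra hcon
    have : 2 * (n - (n - g)) * (2 * (n - g) - n) ≤ 0 :=
      mul_nonpos_of_nonneg_of_nonpos (by linarith) (by linarith)
    linarith
  rw [← sum_erase_add _ _ hxM, L_deg hF hxM] at hk
  have h4 : 0 ≤ ∑ i ∈ M.erase x, Lc M F i * (n - Lc M F i) := by
    refine sum_nonneg fun i hi => ?_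
    rw [mem_erase] at hi
    have h5 := (L_bounds (H := F) hi.2 rfl).2
    rw [← hg] at h5
    have h6 : ¬ F.card ≤ 2 * (F.filter (fun A => i ∈ A)).card := fun h => hi.1 ((hx i).1 h)
    have h7 : (2 * ((F.filter (fun A => i ∈ A)).card : ℤ)) < F.card := by
      have := not_le.1 h6
      exact_mod_cast this
    have h8 := L_deg hF hi.2
    exact mul_nonneg (by linarith) (by linarith)
  nlinarith [hk, h4, hC]

/-- A union-closed family containing `s`, half of all subsets of `s`, with all first level coefficients zero and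
equality in the count of lower edges: there are two elements with exactly one of them in every non-member. -/
private theorem pair {s : Finset ℕ} {Q : Finset (Finset ℕ)} (hQ : Q ⊆ s.powerset)
    (hQU : ∀ A ∈ Q, ∀ B ∈ Q, A ∪ B ∈ Q) (hL : ∀ i ∈ s, Lc s Q i = 0)
    (hlow : ∀ T ∈ s.powerset \ Q, ∃ r ∈ T, T.erase r ∈ Q) (hne : (s.powerset \ Q).Nonempty) :
    ∃ R : Finset ℕ, R.card = 2 ∧ R ⊆ s ∧ ∀ T ∈ Q, (T ∩ R).card ≠ 1 := by
  set R := s.filter (fun i => ({i} : Finset ℕ) ∉ Q) with hR
  have memR : ∀ i, i ∈ R ↔ i ∈ s ∧ ({i} : Finset ℕ) ∉ Q := fun i => by rw [hR, mem_filter]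
  -- free elements
  have free : ∀ i ∈ s, ({i} : Finset ℕ) ∈ Q → ∀ T, T ⊆ s.erase i → (insert i T ∈ Q → T ∈ Q) := by
    intro i hi hiQ
    have h0 := hL i hi
    rw [L_edge hi] at h0
    have h1 : ∀ T ∈ (s.erase i).powerset, 0 ≤ -(sg Q T - sg Q (insert i T)) := by
      intro T _
      unfold sg
      by_cases hT : T ∈ Q
      · have : insert i T ∈ Q := by
          have := hQU {i} hiQ T hT
          rwa [← insert_eq] at this
        simp [hT, this]
      · by_cases h2 : insert i T ∈ Q <;> simp [hT, h2]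
    have h2 : ∑ T ∈ (s.erase i).powerset, -(sg Q T - sg Q (insert i T)) = 0 := by
      rw [sum_neg_distrib, h0, neg_zero]
    have h3 := (sum_eq_zero_iff_of_nonneg h1).1 h2
    intro T hT hin
    have h4 := h3 T (mem_powerset.2 hT)
    unfold sg at h4
    by_contra hTQ
    simp [hTQ, hin] at h4
  -- every non-member meets `R` in exactly one element
  have key : ∀ k : ℕ, ∀ T ∈ s.powerset \ Q, T.card = k → (T ∩ R).card = 1 := by
    intro k
    induction k using Nat.strong_induction_on with
    | _ k ih =>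
      intro T hT hk
      obtain ⟨r, hrT, hrQ⟩ := hlow T hT
      rw [mem_sdiff, mem_powerset] at hT
      have hdown : ∀ j ∈ T, j ≠ r → T.erase j ∈ s.powerset \ Q := by
        intro j hj hjr
        rw [mem_sdiff, mem_powerset]
        refine ⟨(erase_subset _ _).trans hT.1, fun hjQ => hT.2 ?_⟩
        have h1 : T.erase r ∪ T.erase j = T := by
          ext y
          rw [mem_union, mem_erase, mem_erase]
          constructor
          · rintro (h | h) <;> exact h.2
          · intro h
            by_cases hy : y = r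
            · right; exact ⟨by rw [hy]; exact hjr.symm, h⟩
            · left; exact ⟨hy, h⟩
        rw [← h1]
        exact hQU _ hrQ _ hjQ
      by_cases hone : T = {r}
      · rw [hone] at hT ⊢
        have hrR : r ∈ R := (memR r).2 ⟨hT.1 (mem_singleton_self r), hT.2⟩
        rw [singleton_inter_of_mem hrR, card_singleton]
      · obtain ⟨j, hj, hjr⟩ : ∃ j ∈ T, j ≠ r := by
          by_contra hcon
          push Not at hcon
          exact hone (eq_singleton_iff_unique_mem.2 ⟨hrT, hcon⟩)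
        by_cases hfree : ∃ j ∈ T, j ≠ r ∧ j ∉ R
        · obtain ⟨l, hl, hlr, hlR⟩ := hfree
          have h1 := ih (T.erase l).card (by rw [← hk]; exact card_erase_lt_of_mem hl) (T.erase l)
            (hdown l hl hlr) rfl
          have h2 : T.erase l ∩ R = T ∩ R := by
            ext y
            rw [mem_inter, mem_inter, mem_erase]
            constructor
            · rintro ⟨⟨_, h⟩, h'⟩; exact ⟨h, h'⟩
            · rintro ⟨h, h'⟩; exact ⟨⟨fun hy => hlR (hy ▸ h'), h⟩, h'⟩
          rwa [h2] at h1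
        · push Not at hfree
          have hjR := hfree j hj hjr
          have h1 := ih (T.erase j).card (by rw [← hk]; exact card_erase_lt_of_mem hj) (T.erase j)
            (hdown j hj hjr) rfl
          by_cases hrR : r ∈ R
          · -- all of `T` is in `R`
            have h2 : T.erase j ∩ R = T.erase j := by
              rw [inter_eq_left]
              intro y hy
              rw [mem_erase] at hy
              by_cases hyr : y = r
              · rw [hyr]; exact hrR
              · exact hfree y hy.2 hyr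
            rw [h2, card_erase_of_mem hj] at h1
            have h3 : T.erase r = {j} := by
              have h4 : (T.erase r).card = 1 := by rw [card_erase_of_mem hrT]; exact h1
              obtain ⟨z, hz⟩ := card_eq_one.1 h4
              have h5 : j ∈ T.erase r := mem_erase.2 ⟨hjr, hj⟩
              rw [hz, mem_singleton] at h5
              rw [hz, h5]
            rw [h3] at hrQ
            exact absurd hrQ ((memR j).1 hjR).2
          · -- `r` is free
            exfalso
            have hrs : r ∈ s := hT.1 hrT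
            have hrQ' : ({r} : Finset ℕ) ∈ Q := by
              by_contra h
              exact hrR ((memR r).2 ⟨hrs, h⟩)
            apply hT.2
            have := hQU {r} hrQ' _ hrQ
            rwa [← insert_eq, insert_erase hrT] at this
  -- count
  have hRs : R ⊆ s := filter_subset _ _
  have hcount : ∑ i ∈ R, ((s.powerset \ Q).filter (fun T => i ∈ T)).card = (s.powerset \ Q).card := by
    have h1 : ∀ T ∈ s.powerset \ Q, (R.filter (fun i => i ∈ T)).card = 1 := by
      intro T hT
      have := key T.card T hT rfl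
      rw [filter_mem_eq_inter, inter_comm]
      exact this
    have h2 := sum_card_bipartiteAbove_eq_sum_card_bipartiteBelow (s := R) (t := s.powerset \ Q) (fun i T => i ∈ T)
    unfold bipartiteAbove bipartiteBelow at h2
    rw [h2, sum_congr rfl h1]
    simp
  have hhalf : ∀ i ∈ R, 2 * ((s.powerset \ Q).filter (fun T => i ∈ T)).card = (s.powerset \ Q).card := by
    intro i hi
    have h0 := hL i (hRs hi)
    rw [L_compl (hRs hi)] at h0
    have h1 : ∑ T ∈ s.powerset \ Q, chi i T
        = ((s.powerset \ Q).card : ℤ) - 2 * (((s.powerset \ Q).filter (fun T => i ∈ T)).card : ℤ) := by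
      have : ∀ T ∈ s.powerset \ Q, chi i T = 1 - 2 * (if i ∈ T then 1 else 0) := fun T _ => by
        unfold chi; split_ifs <;> norm_num
      rw [sum_congr rfl this, sum_sub_distrib, ← mul_sum, card_filter]
      simp
    rw [h1] at h0
    have h2 : (2 * ((s.powerset \ Q).filter (fun T => i ∈ T)).card : ℤ) = (s.powerset \ Q).card := by linarith
    exact_mod_cast h2
  have hR2 : R.card = 2 := by
    have h1 : ∑ i ∈ R, 2 * ((s.powerset \ Q).filter (fun T => i ∈ T)).card = R.card * (s.powerset \ Q).card := by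
      rw [sum_congr rfl hhalf, sum_const, smul_eq_mul]
    rw [← mul_sum, hcount] at h1
    exact (Nat.eq_of_mul_eq_mul_right (card_pos.2 hne) h1).symm
  refine ⟨R, hR2, hRs, ?_⟩
  -- members do not meet `R` in one element
  have key2 : ∀ k : ℕ, ∀ T ∈ Q, (T \ R).card = k → T ∩ R ∈ Q := by
    intro k
    induction k with
    | zero =>
      intro T hT hk
      have : T ∩ R = T := inter_eq_left.2 (sdiff_eq_empty_iff_subset.1 (card_eq_zero.1 hk))
      rwa [this]
    | succ k ih =>
      intro T hT hk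
      obtain ⟨i, hi⟩ : (T \ R).Nonempty := by rw [← card_pos]; omega
      have hi' := mem_sdiff.1 hi
      have hTs := mem_powerset.1 (hQ hT)
      have his := hTs hi'.1
      have hiQ : ({i} : Finset ℕ) ∈ Q := by
        by_contra h
        exact hi'.2 ((memR i).2 ⟨his, h⟩)
      have h1 : T.erase i ∈ Q := free i his hiQ (T.erase i) (erase_subset_erase i hTs) (by rwa [insert_erase hi'.1])
      have h2 : (T.erase i \ R).card = k := by
        have : T.erase i \ R = (T \ R).erase i := by
          ext y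
          simp only [mem_sdiff, mem_erase]
          tauto
        rw [this, card_erase_of_mem hi, hk]
        rfl
      have h3 := ih _ h1 h2
      have h4 : T.erase i ∩ R = T ∩ R := by
        ext y
        rw [mem_inter, mem_inter, mem_erase]
        constructor
        · rintro ⟨⟨_, h⟩, h'⟩; exact ⟨h, h'⟩
        · rintro ⟨h, h'⟩; exact ⟨⟨fun hy => hi'.2 (hy ▸ h'), h⟩, h'⟩
      rwa [h4] at h3
  intro T hT h1
  have h2 := key2 _ T hT rfl
  obtain ⟨z, hz⟩ := card_eq_one.1 h1
  rw [hz] at h2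
  have h3 : z ∈ R := by
    have : z ∈ T ∩ R := by rw [hz]; exact mem_singleton_self z
    exact (mem_inter.1 this).2
  exact ((memR z).1 h3).2 h2

/-- Part B: the frequent element is in every nonempty member, more than a quarter of all subsets. -/
theorem partB {F : Finset (Finset ℕ)} {M : Finset ℕ} {x : ℕ} (hU : ∀ A ∈ F, ∀ B ∈ F, A ∪ B ∈ F)
    (hM : M ∈ F) (hsub : ∀ A ∈ F, A ⊆ M) (hxM : x ∈ M)
    (htw : ∀ a ∈ M, ∀ b ∈ M, a ≠ b → ∃ A ∈ F, (A ∩ {a, b}).card = 1)
    (hx : ∀ y : ℕ, F.card ≤ 2 * (F.filter (fun A => y ∈ A)).card ↔ y = x)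
    (hall : ∀ A ∈ F, A.Nonempty → x ∈ A) (hbig : 2 ^ M.card < 4 * F.card) (h2 : 2 ≤ M.card) :
    F = insert ∅ (M.powerset.filter (fun S => x ∈ S)) := by
  obtain ⟨s, P, Q, hxs, hMs, hP, hQ, _, hQU, memP, memQ, cF, dF⟩ := setup hU hsub hxM
  have hMc : M.card = s.card + 1 := by rw [hMs, card_insert_of_notMem hxs]
  obtain ⟨i₀, hi₀⟩ : s.Nonempty := by
    rw [← card_pos]
    omega
  have hPe : P ⊆ {∅} := by
    intro A hA
    rw [mem_singleton]
    by_contra hne
    have h1 := (memP A).1 hA
    exact h1.2 (hall A h1.1 (nonempty_iff_ne_empty.2 hne))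
  have hP1 : P.card ≤ 1 := (card_le_card hPe).trans (by simp)
  have dP : ∀ i, (P.filter (fun A => i ∈ A)).card = 0 := by
    intro i
    rw [card_eq_zero, filter_eq_empty_iff]
    intro A hA
    have := hPe hA
    rw [mem_singleton] at this
    rw [this]
    exact notMem_empty i
  have hsQ : s ∈ Q := (memQ s subset_rfl).2 (hMs ▸ hM)
  have c2 := compl_card hQ
  have hL0 : ∀ i ∈ s, (0 ≤ Lc s Q i) ∧ (P = ∅ → 0 < Lc s Q i) := by
    intro i hi
    have hix : i ≠ x := fun h => hxs (h ▸ hi)
    have h1 : ¬ F.card ≤ 2 * (F.filter (fun A => i ∈ A)).card := fun h => hix ((hx i).1 h)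
    have h3 : 2 * (F.filter (fun A => i ∈ A)).card < F.card := not_le.1 h1
    have h4 := dF i hi
    rw [dP i] at h4
    have h5 : (Q.filter (fun A => i ∈ A)).card = (F.filter (fun A => i ∈ A)).card := by
      push_cast at h4
      have : ((Q.filter (fun A => i ∈ A)).card : ℤ) = (F.filter (fun A => i ∈ A)).card := by linarith
      exact_mod_cast this
    have h6 : P.card + Q.card = F.card := by exact_mod_cast cF
    rw [L_deg hQ hi, h5]
    constructor
    · have : 2 * (F.filter (fun A => i ∈ A)).card ≤ Q.card := by omega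
      have h7 : (2 : ℤ) * (F.filter (fun A => i ∈ A)).card ≤ Q.card := by exact_mod_cast this
      linarith
    · intro hPem
      rw [hPem, card_empty, zero_add] at h6
      have h7 : (2 : ℤ) * (F.filter (fun A => i ∈ A)).card < Q.card := by
        rw [h6]
        exact_mod_cast h3
      linarith
  have hgn : 2 * ((s.powerset \ Q).card : ℤ) ≤ 2 ^ s.card := by
    have h6 : P.card + Q.card = F.card := by exact_mod_cast cF
    obtain ⟨k, hk⟩ : ∃ k, s.card = k + 1 := ⟨s.card - 1, by have := card_pos.2 ⟨i₀, hi₀⟩; omega⟩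
    rw [hMc, hk, pow_succ, pow_succ] at hbig
    have h7 : 2 ^ k ≤ Q.card := by omega
    rw [hk, pow_succ] at c2 ⊢
    have h8 : ((2 : ℤ) ^ k) ≤ Q.card := by exact_mod_cast h7
    linarith
  have hk := karpas' hQ rfl rfl
  rw [dn_card] at hk
  have hE : ((dn s Q).card : ℤ) ≤ ((s.powerset \ Q).card : ℤ) := by
    rw [← dn_card]
    exact down_le hQU
  set n : ℤ := 2 ^ s.card with hn
  set g : ℤ := ((s.powerset \ Q).card : ℤ) with hg
  have hg0 : 0 ≤ g := by rw [hg]; positivity
  have hn0 : 0 < n := by positivity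
  have hterm : ∀ i ∈ s, 0 ≤ Lc s Q i * (n - Lc s Q i) := by
    intro i hi
    have h5 := (L_bounds (H := Q) hi hg).2
    exact mul_nonneg (hL0 i hi).1 (by linarith)
  have hsum := sum_nonneg hterm
  have t1 : 0 ≤ 4 * g * (n - 2 * g) := mul_nonneg (by linarith) (by linarith)
  have t2 : 0 ≤ 4 * n * (g - (dn s Q).card) := mul_nonneg (by linarith) (by linarith)
  have z1 : 4 * g * (n - 2 * g) = 0 := by linarith
  have z2 : 4 * n * (g - (dn s Q).card) = 0 := by linarith
  have z3 : ∑ i ∈ s, Lc s Q i * (n - Lc s Q i) = 0 := by linarith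
  have z4 := (sum_eq_zero_iff_of_nonneg hterm).1 z3
  rcases eq_or_lt_of_le hg0 with hgz | hgp
  · -- `Q` is everything
    have hQall : ∀ T, T ⊆ s → T ∈ Q := by
      intro T hT
      have h3 : (s.powerset \ Q).card = 0 := by
        rw [hg] at hgz
        exact_mod_cast hgz.symm
      by_contra hTQ
      have : T ∈ s.powerset \ Q := mem_sdiff.2 ⟨mem_powerset.2 hT, hTQ⟩
      rw [card_eq_zero.1 h3] at this
      exact absurd this (notMem_empty _)
    refine descr hsub hMs memP memQ ?_ hQall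
    rcases subset_singleton_iff.1 hPe with h | h
    · exfalso
      have h1 := (hL0 i₀ hi₀).2 h
      have h3 := (L_bounds (H := Q) hi₀ hg).2
      linarith
    · exact h
  · exfalso
    have hn2 : n = 2 * g := by
      rcases mul_eq_zero.1 z1 with h | h
      · linarith
      · linarith
    have hLz : ∀ i ∈ s, Lc s Q i = 0 := by
      intro i hi
      rcases mul_eq_zero.1 (z4 i hi) with h | h
      · exact h
      · exfalso
        have h1 := L_deg hQ hi
        have h3 : 0 < (Q.filter (fun A => i ∈ A)).card := card_pos.2 ⟨s, mem_filter.2 ⟨hsQ, hi⟩⟩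
        have h4 : (0 : ℤ) < (Q.filter (fun A => i ∈ A)).card := by exact_mod_cast h3
        linarith
    have hlow : ∀ T ∈ s.powerset \ Q, ∃ r ∈ T, T.erase r ∈ Q := by
      refine dn_surj hQU ?_
      have h1 : g - (dn s Q).card = 0 := by
        rcases mul_eq_zero.1 z2 with h | h
        · linarith
        · exact h
      have h3 : g = (dn s Q).card := by linarith
      rw [hg] at h3
      have h4 : (s.powerset \ Q).card = (dn s Q).card := by exact_mod_cast h3
      exact h4.le
    have hne : (s.powerset \ Q).Nonempty := by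
      rw [← card_pos]
      rw [hg] at hgp
      exact_mod_cast hgp
    obtain ⟨R, hR2, hRs, hR⟩ := pair hQ hQU hLz hlow hne
    obtain ⟨a, b, hab, hRab⟩ := card_eq_two.1 hR2
    have haM : a ∈ M := by
      rw [hMs]; exact mem_insert_of_mem (hRs (by rw [hRab]; exact mem_insert_self _ _))
    have hbM : b ∈ M := by
      rw [hMs]; exact mem_insert_of_mem (hRs (by rw [hRab]; exact mem_insert_of_mem (mem_singleton_self _)))
    obtain ⟨A, hA, hA1⟩ := htw a haM b hbM hab
    rw [← hRab] at hA1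
    have hAne : A.Nonempty := by
      rw [nonempty_iff_ne_empty]
      rintro rfl
      rw [empty_inter, card_empty] at hA1
      exact absurd hA1 (by norm_num)
    have hxA := hall A hA hAne
    have h3 : A.erase x ⊆ s := by
      intro y hy
      rw [mem_erase] at hy
      have := hsub A hA hy.2
      rw [hMs] at this
      exact (mem_insert.1 this).resolve_left hy.1
    have h4 : A.erase x ∈ Q := (memQ _ h3).2 (by rwa [insert_erase hxA])
    have h5 : A.erase x ∩ R = A ∩ R := by
      ext y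
      rw [mem_inter, mem_inter, mem_erase]
      constructor
      · rintro ⟨⟨_, h⟩, h'⟩; exact ⟨h, h'⟩
      · rintro ⟨h, h'⟩; exact ⟨⟨fun hy => hxs (hRs (hy ▸ h')), h⟩, h'⟩
    exact hR _ h4 (by rw [h5]; exact hA1)

/-- Part D: few members avoid the frequent element, compared with the number of missing sets. -/
theorem partD {F : Finset (Finset ℕ)} {M : Finset ℕ} {x : ℕ} (hU : ∀ A ∈ F, ∀ B ∈ F, A ∪ B ∈ F)
    (hM : M ∈ F) (hsub : ∀ A ∈ F, A ⊆ M) (hxM : x ∈ M)
    (hx : ∀ y : ℕ, F.card ≤ 2 * (F.filter (fun A => y ∈ A)).card ↔ y = x)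
    (hD : ((M.card : ℤ) - 1) * ((F.filter (fun A => x ∉ A)).card : ℤ)
        * (2 ^ (M.card - 1) + 2 * ((F.filter (fun A => x ∉ A)).card : ℤ))
      ≤ 2 * (2 ^ (M.card - 1) - ((F.filter (fun A => x ∈ A)).card : ℤ))
        * (2 * ((F.filter (fun A => x ∈ A)).card : ℤ) - 2 ^ (M.card - 1)))
    (hd : 2 ^ (M.card - 1) ≤ 2 * (F.filter (fun A => x ∈ A)).card) (h2 : 2 ≤ M.card) : False := by
  obtain ⟨s, P, Q, hxs, hMs, hP, hQ, _, hQU, memP, memQ, cF, dF⟩ := setup hU hsub hxM
  have hMc : M.card = s.card + 1 := by rw [hMs, card_insert_of_notMem hxs]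
  obtain ⟨i₀, hi₀⟩ : s.Nonempty := by
    rw [← card_pos]
    omega
  have hPF : P = F.filter (fun A => x ∉ A) := by
    ext T
    rw [memP, mem_filter]
  have cadd := card_filter_add_card_filter_not (s := F) (fun A => x ∈ A)
  have hQc : Q.card = (F.filter (fun A => x ∈ A)).card := by
    have h6 : P.card + Q.card = F.card := by exact_mod_cast cF
    rw [hPF] at h6
    omega
  have hsQ : s ∈ Q := (memQ s subset_rfl).2 (hMs ▸ hM)
  have c2 := compl_card hQ
  have hk := karpas hQ hQU rfl rfl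
  have hs1 : M.card - 1 = s.card := by omega
  rw [hs1, ← hPF, ← hQc] at hD
  rw [hs1, ← hQc] at hd
  have hMz : (M.card : ℤ) - 1 = s.card := by rw [hMc]; push_cast; ring
  rw [hMz] at hD
  have hd' : (2 : ℤ) ^ s.card ≤ 2 * Q.card := by exact_mod_cast hd
  set n : ℤ := 2 ^ s.card with hn
  set g : ℤ := ((s.powerset \ Q).card : ℤ) with hg
  set a : ℤ := (P.card : ℤ) with ha
  have hQg : (Q.card : ℤ) = n - g := by linarith
  rw [hQg] at hD hd'
  have hg0 : 0 ≤ g := by rw [hg]; positivity
  have ha0 : 0 ≤ a := by rw [ha]; positivity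
  have hn0 : 0 < n := by positivity
  have hgn : 2 * g ≤ n := by linarith
  have hb : ∀ i ∈ s, - (2 * a) < Lc s Q i ∧ Lc s Q i ≤ 2 * g ∧ Lc s Q i < 2 * (n - g) := by
    intro i hi
    have hix : i ≠ x := fun h => hxs (h ▸ hi)
    have h1 : ¬ F.card ≤ 2 * (F.filter (fun A => i ∈ A)).card := fun h => hix ((hx i).1 h)
    have h3 : (2 : ℤ) * (F.filter (fun A => i ∈ A)).card < F.card := by
      have := not_le.1 h1
      exact_mod_cast this
    have h4 := dF i hi
    have h5 := L_deg hQ hi
    have h6 : (0 : ℤ) ≤ (P.filter (fun A => i ∈ A)).card := by positivity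
    have h7 : ((P.filter (fun A => i ∈ A)).card : ℤ) ≤ a := by
      rw [ha]
      exact_mod_cast card_filter_le _ _
    have h8 : (0 : ℤ) < (Q.filter (fun A => i ∈ A)).card := by
      have : 0 < (Q.filter (fun A => i ∈ A)).card := card_pos.2 ⟨s, mem_filter.2 ⟨hsQ, hi⟩⟩
      exact_mod_cast this
    refine ⟨?_, (L_bounds (H := Q) hi hg).2, ?_⟩
    · rw [h5]
      linarith
    · rw [h5, hQg]
      linarith
  have hterm : ∀ i ∈ s, - (2 * a * (n + 2 * a)) < Lc s Q i * (n - Lc s Q i) := by
    intro i hi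
    obtain ⟨h1, h3, h4⟩ := hb i hi
    have h5 : Lc s Q i < n := by
      by_contra hcon
      have : n ≤ 2 * g := by linarith
      linarith
    have h6 : 0 < (Lc s Q i + 2 * a) * (n + 2 * a - Lc s Q i) := mul_pos (by linarith) (by linarith)
    nlinarith [h6]
  have hsum := sum_lt_sum_of_nonempty ⟨i₀, hi₀⟩ hterm
  rw [sum_const, nsmul_eq_mul] at hsum
  nlinarith [hsum, hk, hD]

/-- Part E: at least two sevenths of all subsets are members avoiding the frequent element. -/
theorem partE {F : Finset (Finset ℕ)} {M : Finset ℕ} {x : ℕ} (hU : ∀ A ∈ F, ∀ B ∈ F, A ∪ B ∈ F)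
    (hM : M ∈ F) (hsub : ∀ A ∈ F, A ⊆ M) (hxM : x ∈ M)
    (hx : ∀ y : ℕ, F.card ≤ 2 * (F.filter (fun A => y ∈ A)).card ↔ y = x)
    (hE : 2 * 2 ^ M.card ≤ 7 * (F.filter (fun A => x ∉ A)).card) (h2 : 2 ≤ M.card) :
    F = insert ∅ (M.powerset.filter (fun S => x ∈ S)) := by
  by_cases hA : 3 * 2 ^ M.card ≤ 4 * F.card
  · exact partA hU hM hsub hxM hx hA h2
  exfalso
  apply partC hU hsub hxM hx
  have hfr := (hx x).2 rfl
  have cadd := card_filter_add_card_filter_not (s := F) (fun A => x ∈ A)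
  have hF : F ⊆ M.powerset := fun A hA => mem_powerset.2 (hsub A hA)
  have c := card_le_card hF
  rw [card_powerset] at c
  have hd2 : 2 * (F.filter (fun A => x ∈ A)).card ≤ 2 ^ M.card := by
    obtain ⟨s, P, Q, hxs, hMs, hP, hQ, _, _, memP, _, cF, _⟩ := setup hU hsub hxM
    have hMc : M.card = s.card + 1 := by rw [hMs, card_insert_of_notMem hxs]
    have hPF : P = F.filter (fun A => x ∉ A) := by
      ext T
      rw [memP, mem_filter]
    have h6 : P.card + Q.card = F.card := by exact_mod_cast cF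
    have h7 := card_le_card hQ
    rw [card_powerset] at h7
    rw [hPF] at h6
    rw [hMc, pow_succ]
    omega
  push Not at hA
  zify at hA hE hfr cadd c hd2
  set N : ℤ := 2 ^ M.card
  set d : ℤ := ((F.filter (fun A => x ∈ A)).card : ℤ)
  set a : ℤ := ((F.filter (fun A => x ∉ A)).card : ℤ)
  have hFc : (F.card : ℤ) = d + a := cadd.symm
  rw [hFc] at hA hfr c ⊢
  -- `u = d - a ≥ 0`, `t = 3 N - 4 (d + a) > 0`
  have hu : 0 ≤ d - a := by linarith
  have ht : 0 < 3 * N - 4 * (d + a) := by linarith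
  have hN : 0 ≤ N := by positivity
  have hU1 : 14 * (d - a) ≤ 7 * (2 * (d + a)) - 8 * N := by linarith
  have hp1 : 0 ≤ (7 * (2 * (d + a)) - 8 * N - 14 * (d - a)) * (d - a) := mul_nonneg (by linarith) hu
  have hp2 : 0 ≤ (7 * (2 * (d + a)) - 8 * N - 14 * (d - a)) * (3 * N - 4 * (d + a)) :=
    mul_nonneg (by linarith) ht.le
  have hp3 : 0 ≤ (7 * (2 * (d + a)) - 8 * N - 14 * (d - a)) * N := mul_nonneg (by linarith) hN
  have hp4 : 0 ≤ (d - a) * (3 * N - 4 * (d + a)) := mul_nonneg hu ht.le
  have hp5 : 0 < (3 * N - 4 * (d + a)) * (3 * N - 4 * (d + a)) := mul_pos ht ht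
  have hp6 : 0 ≤ (3 * N - 4 * (d + a)) * N := mul_nonneg ht.le hN
  nlinarith [hp1, hp2, hp3, hp4, hp5, hp6]

end Pool.Agent.Lib.MP_881a56_co.Large
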